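import Pool.Agent.NearOrd.OddN
import Pool.Agent.NearOrd.Prod

/-!
# The Mumford-Tate conjecture for abelian varieties with `End = ℤ` and one suitable place

Let `F` be an alternating rational matrix of size `n` with nonzero determinant, `h` a Lie algebra of
rational matrices `x` with `xᵀ F + F x = 0`, which has no ideals over `ℚ` except `0` and `h`, such
that `ℂⁿ` is irreducible under `h`. Assume that the complex span `H` of `h` contains `2 e - 1` for an
idempotent `e`. Then `h` is the set of all rational matrices `x` with `xᵀ F + F x = 0`, if one of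
the conditions (a), (b), (c) and one of the conditions (d), (e), (f) hold. (They may hold for
different reasons, for example because of different places.)

* (a) For every automorphism `γ` of `ℂ` and every finite set `S` of algebraic numbers there is an
  automorphism `τ` of `ℂ`, equal to `γ` on `S`, which fixes a nonzero `N ∈ H` with `N² = 0`.
* (b) There is a nonzero `N ∈ H` with rank `N < m ^ (k - 1)` whenever `n = m ^ k`, `k ≥ 3` odd.
* (c) There is a diagonalisable `ν` with eigenvalues in `[0, 1]` and `2 ν - 1 ∈ H`, such that the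
  multiplicity `f` of the eigenvalue `0` is not a product of `k` numbers each of which is equal to
  `m` or at most `m / 2`, whenever `n = m ^ k`, `k ≥ 3` odd.
* (d) There is a nonzero `N ∈ H` with rank `N < n / 4`, or with `N² = 0` and odd rank.
* (e) There is a diagonalisable `ν` with eigenvalues in `[0, 1]`, `2 ν - 1 ∈ H` and `ν e = e ν`, such
  that the multiplicity `f` of the eigenvalue `0` satisfies `3 n / 8 < f < n / 2`.
* (f) `n` is neither a power `2 ^ m` with `m ≥ 5`, nor a binomial coefficient `C(2 k, k)` with
  `k ≥ 3` odd.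

## Application

Let `A` be an abelian variety of dimension `g` over a number field `K` with `End(A) = ℤ` over an
algebraic closure; there is no condition on `K` and we may enlarge `K`, so that the monodromy groups
`G_ℓ` are connected and `A` has semistable reduction at the place `v` considered. By Pink (1998,
Theorem 5.13) there are a reductive group `P` over `ℚ` and a set `L` of prime numbers `ℓ` of density
one such that `G_ℓ` is `P` over `ℚ_ℓ` for all `ℓ ∈ L`, and the derived group of `P` has no proper
normal connected subgroup over `ℚ`. Let `h` be its Lie algebra, `n = 2 g`, and `e` the derivative of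
a Hodge–Tate cocharacter. Let `v` be a place of `K` over `p`, and `ℓ ∈ L` different from `p`.

* *Slopes.* Let `Φ` be the semisimple part of a Frobenius element at `v`, an element of `G_ℓ`; its
  eigenvalues `α` are algebraic numbers, `α` and `q / α` have the same multiplicity. Let `w` be a
  place over `p` of the field generated by them. The operator `ν` with the eigenvalue
  `w(α) / w(q)` on the eigenspace of `α` is in the Lie algebra of the torus generated by `Φ`, hence
  in `Lie G_ℓ`, and `2 ν - 1` is in the Lie algebra of the derived group (the centre of `G_ℓ`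
  consists of homotheties). The eigenvalues of `ν` are the slopes of `A` at `v`. The multiplicity of
  the slope zero is `f = t + r`, where `t` is the toric rank and `r` the `p`-rank of the abelian
  part of the reduction. The cocharacter can be chosen in a maximal torus of `G_ℓ` which contains
  `Φ`, so `ν e = e ν`. Let `c = g - f`, so that `c = 0` if and only if the reduction is ordinary (in
  the sense that its abelian part is).
* *Bad reduction.* If `t > 0` then the logarithm `N` of the local monodromy is an element of the Lie
  algebra of the derived group, rational over `ℚ_ℓ`, with `N² = 0` and rank `t`; this gives (a), by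
  the theorem of Chebotarev. If `N, y, M` is a triple of Jacobson and Morozov with `y = [N, M]` then
  `ν = (1 + y) / 2` has the eigenvalues `0, 1 / 2, 1` with the multiplicities `t`, `n - 2 t`, `t`.

So the Mumford–Tate conjecture holds for `A` (for all `ℓ`, by Larsen and Pink, and for all powers of
`A` and all degrees, because `G_ℓ` is the group of symplectic similitudes, which contains the
Mumford–Tate group, by Deligne), if there is a place `v` such that

1. `0 < c < g / 4`, and `m ^ (k - 1)` does not divide `c` if `2 g = m ^ k`, `k ≥ 3` odd; for example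
   if `g > 4` and `c = 1` (almost ordinary reduction), or `c ≤ 3 < g / 4`; the condition on
   `m ^ (k - 1)` is automatically true if `m ≤ 8`; or
2. `t > 0` and (`t < g / 2` or `t` is odd or `3 g / 4 < t < g`); or
3. `2 s` of the slopes at `v` are different from `1 / 2`, `0 < s < g / 4`, and `2 s < m ^ (k - 1)` if
   `2 g = m ^ k`, `k ≥ 3` odd; or
4. `2 g` is as in (f), and `t > 0` or `f` is as in (c), for example if a prime number `> m / 2`
   divides `f > 0` whenever `2 g = m ^ k`, `k ≥ 3` odd, `m > 2` (or `g = 4` and `p`-rank three);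

and in the case (e) for one place and (a) or (b) or (c) for another one. The first condition is of a
different nature than the known ones: it is satisfied by one single Frobenius element, there is no
condition on the field `K`, on the component group or on the dimension, and for `A` with large
monodromy one expects infinitely many places with `c = 1`. If `n / 4 < f < n / 2` then `f` is as in
(c) if and only if it is not divisible by `m ^ (k - 1)`, because at most one factor is `≤ m / 2`; and
`m ^ (k - 1)` divides `g`, as `m` is even.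

## Earlier results

Pink: `n ≠ m ^ k`, `n ≠ C(2k, k)` for odd `k ≥ 3`; Serre: `g` odd or `g = 2, 6`. Toric rank one:
Hall. Almost ordinary and geometrically simple reduction: the Frobenius torus has full rank (Lenstra
and Zarhin), and then the conjecture follows. `s = 1`: Zarhin (K3 type); `g = 4`: Noot (the possible
reductions for Mumford's groups). Former hand-ins of this folder:
BadReduction was the case (a) together with the first part of (d) or with (f), OddToricRank the
second part of (d).

## The idea of the proof

`H` is a sum of `k` simple ideals (`k` odd), `n = m ^ k`, and `V = ℂⁿ` is the tensor product of spaces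
of dimension `m`. (a) gives `k = 1` by Jordan's theorem. If a nonzero `N ∈ H` has a component `u ≠ 0` in
one of the ideals then there are operators `a`, `b` of the corresponding factor with `a b = 0`,
`a u b` an idempotent of rank one on the factor, so the rank of `a N b = a u b` is `m ^ (k - 1)`: (b)
gives `k = 1`. The space of the top eigenvalue of `x = 2 ν - 1` is the tensor product of the spaces
of the top eigenvalues of the components of `x` on the factors of dimension `m`; such a space has
dimension `m` if the component is zero, and at most `m / 2` if not, because the components are skew: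
(c) gives `k = 1`. Now let `H` be simple. By BadReduction it
is symplectic in the case (f) or (d). In the case (e) let `M` be the sum of the eigenspaces of `x`
for the eigenvalues different from `1` and `-1`, of dimension `n - 2 f`. It is not stable under `H`,
so there is `y ∈ H` of degree `± 1` with respect to `e` with `[x, y] = δ y`, `0 < |δ| < 2`. It maps the
lowest eigenspace to `M` and the highest one to zero (if `δ > 0`), so the rank of `y` is at most
`dim M < n / 4`.
-/

set_option autoImplicit false

namespace Pool.Agent.Results.MP_6c781a_ag.OnePlace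

open Polynomial

variable {ι : Type} [Fintype ι] [DecidableEq ι]

/-- The complex vector space spanned by a space `h` of rational matrices. -/
def complexSpan (h : Submodule ℚ (Matrix ι ι ℚ)) : Submodule ℂ (Matrix ι ι ℂ) :=
  Submodule.span ℂ ((fun x : Matrix ι ι ℚ => x.map (fun q : ℚ => (q : ℂ))) '' h)

/-- `h` is a Lie algebra of rational matrices which are skew with respect to the alternating
invertible matrix `F`, without ideals over `ℚ` other than `0` and `h`, and there are no complex
subspaces stable under `h` other than `0` and the whole space. -/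
structure MonodromyAlgebra (F : Matrix ι ι ℚ) (h : Submodule ℚ (Matrix ι ι ℚ)) : Prop where
  alternating : F.transpose = -F
  invertible : IsUnit F
  skew : ∀ x ∈ h, x.transpose * F + F * x = 0
  lie : ∀ x ∈ h, ∀ y ∈ h, x * y - y * x ∈ h
  simple : ∀ a : Submodule ℚ (Matrix ι ι ℚ), a ≤ h → (∀ x ∈ h, ∀ y ∈ a, x * y - y * x ∈ a) →
    a = ⊥ ∨ a = h
  irreducible : ∀ W : Submodule ℂ (ι → ℂ),
    (∀ x ∈ h, ∀ w ∈ W, (x.map (fun q : ℚ => (q : ℂ))).mulVec w ∈ W) → W = ⊥ ∨ W = ⊤

/-- The condition of bad reduction: every automorphism of `ℂ` agrees on a given finite set of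
algebraic numbers with one which fixes a nonzero matrix of square zero in the complex span. -/
def BadPlace (h : Submodule ℚ (Matrix ι ι ℚ)) : Prop :=
  ∀ (γ : ℂ ≃+* ℂ) (S : Finset ℂ), (∀ x ∈ S, IsAlgebraic ℚ x) →
    ∃ τ : ℂ ≃+* ℂ, (∀ x ∈ S, τ x = γ x) ∧
      ∃ N ∈ complexSpan h, N ≠ 0 ∧ N * N = 0 ∧ N.map τ = N

/-- `ν` is diagonalisable with real eigenvalues between `0` and `1`, the eigenvalue `0` has
multiplicity `f`, and `2 ν - 1` is in the complex span of `h`. -/
structure Slopes (h : Submodule ℚ (Matrix ι ι ℚ)) (ν : Matrix ι ι ℂ) (f : ℕ) : Prop where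
  mem : (2 : ℂ) • ν - 1 ∈ complexSpan h
  diag : ∃ S : Finset ℝ, (∀ s ∈ S, 0 ≤ s ∧ s ≤ 1) ∧ aeval ν (∏ s ∈ S, (X - C (s : ℂ))) = 0
  mult : ν.rank + f = Fintype.card ι

private theorem aux {ν : Matrix ι ι ℂ} {S : Finset ℝ} (hS : ∀ s ∈ S, 0 ≤ s ∧ s ≤ 1)
    (h : aeval ν (∏ s ∈ S, (X - C (s : ℂ))) = 0) : ∃ S' : Finset ℝ, (∀ s ∈ S', -1 ≤ s ∧ s ≤ 1) ∧
      aeval ((2 : ℂ) • ν - 1) (∏ s ∈ S', (X - C (s : ℂ))) = 0 := by
  refine ⟨S.image fun s => 2 * s - 1, ?_, ?_⟩
  · intro t ht
    obtain ⟨s, hs, rfl⟩ := Finset.mem_image.1 ht
    have h1 := hS s hs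
    constructor <;> linarith
  · rw [Finset.prod_image fun a _ b _ hab => by linarith]
    have h1 : (∏ s ∈ S, (X - C ((2 * s - 1 : ℝ) : ℂ))) =
        (∏ s ∈ S, C (2 : ℂ)) * (∏ s ∈ S, (X - C (s : ℂ))).comp (C (2⁻¹ : ℂ) * (X + 1)) := by
      rw [Polynomial.prod_comp, ← Finset.prod_mul_distrib]
      refine Finset.prod_congr rfl fun s _ => ?_
      rw [sub_comp, X_comp, C_comp, mul_sub, ← mul_assoc, ← C_mul, mul_inv_cancel₀ two_ne_zero,
        C_1, one_mul, ← C_mul]
      push_cast
      rw [C_sub, C_1]
      ring
    rw [h1, map_mul, aeval_comp]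
    have h2 : aeval ((2 : ℂ) • ν - 1) (C (2⁻¹ : ℂ) * (X + 1)) = ν := by
      rw [map_mul, aeval_C, map_add, aeval_X, map_one, sub_add_cancel,
        Algebra.algebraMap_eq_smul_one, smul_mul_assoc, one_mul, smul_smul,
        inv_mul_cancel₀ two_ne_zero, one_smul]
    rw [h2, h, mul_zero]

private theorem aux' {ν : Matrix ι ι ℂ} : ((2 : ℂ) • ν - 1 + 1).rank = ν.rank := by
  rw [sub_add_cancel]
  exact Matrix.rank_smul_of_mem_nonZeroDivisors _ (mem_nonZeroDivisors_of_ne_zero two_ne_zero)

/-- A Lie algebra of rational matrices with a cocharacter consists of all skew matrices if two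
local conditions hold, one which excludes tensor products and one which excludes spin
representations and exterior powers. -/
theorem result (F : Matrix ι ι ℚ) (h : Submodule ℚ (Matrix ι ι ℚ)) (hh : MonodromyAlgebra F h)
    (e : Matrix ι ι ℂ) (hee : e * e = e) (heh : (2 : ℂ) • e - 1 ∈ complexSpan h)
    (h1 : BadPlace h ∨
      (∃ N ∈ complexSpan h, N ≠ 0 ∧ ∀ m k : ℕ, Odd k → 3 ≤ k → Fintype.card ι = m ^ k →
        N.rank < m ^ (k - 1)) ∨
      ∃ ν f, Slopes h ν f ∧ ∀ m k : ℕ, Odd k → 3 ≤ k → Fintype.card ι = m ^ k →
        ∀ φ : Fin k → ℕ, (∀ i, φ i = m ∨ 2 * φ i ≤ m) → f ≠ ∏ i, φ i)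
    (h2 : (∃ N ∈ complexSpan h, N ≠ 0 ∧
        (4 * N.rank < Fintype.card ι ∨ (N * N = 0 ∧ Odd N.rank))) ∨
      (∃ ν f, Slopes h ν f ∧ ν * e = e * ν ∧ 2 * f < Fintype.card ι ∧
        3 * Fintype.card ι < 8 * f) ∨
      ((∀ m : ℕ, 5 ≤ m → Fintype.card ι ≠ 2 ^ m) ∧
        ∀ k : ℕ, Odd k → 3 ≤ k → Fintype.card ι ≠ (2 * k).choose k))
    (x : Matrix ι ι ℚ) : x ∈ h ↔ x.transpose * F + F * x = 0 := by
  have D : FQ.LieData F h := ⟨hh.alternating, hh.invertible, hh.skew, hh.lie, hh.simple,
    hh.irreducible⟩
  have he : FQ.IsCochar h e := ⟨hee, heh⟩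
  rcases isEmpty_or_nonempty ι with hι | hι
  · refine ⟨D.skew x, fun _ => ?_⟩
    have h3 : x = 0 := Matrix.ext fun i => (hι.false i).elim
    rw [h3]
    exact h.zero_mem
  have hidl : FQ.idl (FQ.cx h) e = FQ.cx h := by
    rcases h1 with h1 | ⟨N, hN, hN0, hNr⟩ | ⟨ν, f, hν, hprod⟩
    · refine SmallRank.idl_eq_of_locMon D he ?_
      intro γ S hS
      obtain ⟨τ, hτ, N, hN, hN0, hNN, hNτ⟩ := h1 γ S hS
      exact ⟨τ, hτ, N, hN, hNN, hN0, hNτ⟩
    · exact NearOrd.idl_of_rank D he hN hN0 hNr
    · obtain ⟨S, hS, hd⟩ := hν.diag
      obtain ⟨S', hS', hd'⟩ := aux hS hd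
      exact NearOrd.idl_of_prod D he hν.mem (NearOrd.diag_Φ hd') hS'
        (by rw [aux']; exact hν.mult) hprod
  rcases h2 with ⟨N, hN, hN0, hr | ⟨hNN, hodd⟩⟩ | ⟨ν, f, hν, hνe, hf1, hf2⟩ | h2
  · exact SmallRank.full_of_idl D he hidl (Or.inl ⟨N, hN, hN0, hr⟩) x
  · exact NearOrd.full_of_odd D he hidl hN hNN hodd x
  · refine SmallRank.full_of_idl D he hidl (Or.inl ?_) x
    obtain ⟨S, hS, hd⟩ := hν.diag
    obtain ⟨S', hS', hd'⟩ := aux hS hd
    refine NearOrd.small_of_slopes D he hidl hν.mem ?_ (NearOrd.diag_Φ hd') hS'
      (by rw [aux']; exact hν.mult) hf1 hf2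
    rw [sub_mul, mul_sub, smul_mul_assoc, mul_smul_comm, hνe, one_mul, mul_one]
  · exact SmallRank.full_of_idl D he hidl (Or.inr h2) x

end Pool.Agent.Results.MP_6c781a_ag.OnePlace
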