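import Pool.Agent.FQX.StmtM

/-!
# The reciprocity law for the tensor factors of the monodromy groups, and the Mumford–Tate conjecture

Let `A` be an abelian variety over a number field `K ⊂ ℂ` with connected `ℓ`-adic monodromy groups
`G_ℓ` (this holds after a finite extension of `K`, Serre). All endomorphisms of `A` are defined over
`K`. Let `E` be the centre of `End(A) ⊗ ℚ`, a product of totally real fields and CM fields with the
complex conjugation `c`. For `σ : E → ℂ` let `n(σ)` be the dimension of the irreducible
`G_ℓ`-submodules `W` of the eigenspace `V_σ` of `V_ℓ(A) ⊗ ℂ`, and `r(σ)` the dimension of the part of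
`Lie(A) ⊗_K ℂ` on which `E` acts by `σ`, divided by the multiplicity of `W` in `V_σ`. If `A` is simple
of type I, II, III, IV, then the `σ` are real and `W` is symplectic (I, II) or orthogonal (III), or the
`σ` are not real (IV); for real `σ`, and for all `σ` if `K` is real, `2 r(σ) = n(σ)`. For simple `A` all
`n(σ)` are `2 dim A / [E : ℚ]` (I), `dim A / [E : ℚ]` (II, III), `2 dim A / (d [E : ℚ])` (IV, `d` the
Schur index).

The theorem says that the Mumford–Tate conjecture is true for `A` if
* `K = ℚ` and no `n(σ)` is a power of two, except `1`, `2`, `4`, `8` (types I, II), `1`, `2`, `4` (type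
  III), `1`, `4` and the odd powers of two (type IV): `NoPow`; or
* `K` is real, the same condition `NoPow` holds, and `NoTensor` for all `σ`; or
* `K` is arbitrary and the numerical conditions `Num` hold; they contain `NoTensor` instead of the
  condition that `W` is not a tensor product.
Then the Hodge classes and the Tate classes on all powers of `A` agree, for all `ℓ`.

`NoTensor` is a condition on the fields `K` and `E` and the numbers `n(σ)`, `r(σ)`. If `E = ℚ` it is
satisfied if `K` contains no totally real field `F ≠ ℚ` such that `n` is a power `m ^ [F : ℚ]`. It says
that the Hodge structure of `A` can be a tensor product of the form considered by Mumford only over a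
field which contains the field of definition of the factor touched by the Hodge cocharacter.

## The data

* `Φ` is the Frobenius element of a place `v = (π)` of `K` of degree one with good reduction for
  which the Frobenius torus is a maximal torus of `G_ℓ` (Serre: the density of these places is one);
  its eigenvalues have the same absolute value (Weil) and generate a group without torsion. Here `π`
  is totally positive and `π ≡ 1` modulo a fixed ideal, divisible by high powers of the places of bad
  reduction and of the places over the primes `≤ m`; such places exist (a class of a ray class field,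
  Chebotarev). `E` and `Φ` act on `V_ℓ` with rational traces, so they are given by rational matrices
  in a suitable basis (`Frob`). `tor Φ` is the Lie algebra of the Frobenius torus. `m = d!` with
  `d = 2 dim A`.
* `Mono`: the Lie algebra `g` of `G_ℓ` with coefficients in `ℂ`, an algebraic closure of `ℚ_ℓ`, is
  reductive, its commutant is `End(A) ⊗ ℂ` (Faltings) with the centre `E ⊗ ℂ`; it contains the
  homotheties (Bogomolov); `ψ` is the Weil pairing of a polarisation, and the types are those of
  Albert. The torus of `Φ` is maximal.
* Hypothesis `hHT`: let `γ` be an automorphism of `ℂ` over `K` and `S` a finite set of algebraic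
  numbers. By the theorem of Chebotarev there are a prime `ℓ` and an identification of `ℂ` with an
  algebraic closure of `ℚ_ℓ` such that the place of `K` over `ℓ` given by it has degree one and good
  reduction, and an automorphism `τ` over `ℚ_ℓ` which is equal to `γ` on `S`. The decomposition of
  Hodge and Tate (Tate, Sen) gives an idempotent in `g`; its conjugacy class is stable under `τ`,
  since the place has degree one, and contains an element `e` of `tor Φ`. The rank of `e` on `W` is
  `r(σ)`, since the place is the one given by `K ⊂ ℂ`: `Coch`.
  Class field theory: suppose that `γ` fixes all conjugates of `K`, the roots of unity of order `m` and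
  all `m`-th roots of all conjugates of `π` (`Kum K π m 1 γ`). Then `ℓ` can be chosen such that
  `K_w = ℚ_ℓ` and `π` is an `m`-th power in `K_w` for all `w ∣ ℓ`. The group
  `G_ℓ(ℚ_ℓ) / im G_ℓ^sc(ℚ_ℓ)` is abelian (Deligne), so the representation gives a homomorphism `χ` of
  the idele class group of `K` into it. The product formula for the principal idele `π`: `χ_v(π)` is
  the class of `Φ` or its inverse; for `w ∣ ℓ` the element `χ_w(π)` is an `m`-th power; for the places
  `u` of bad reduction `χ_u` is trivial on the norms of the units of an extension over which `A` is
  semistable, since unipotent elements come from `G_ℓ^sc` (Grothendieck; this is uniform in `ℓ`), so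
  `χ_u(π) = 1`; and `χ_u(π) = 1` at all other places. Hence the class of `Φ` is an `m`-th power.
  Let `X` be the group of the cocharacters of the Frobenius torus, `x` a point of this torus with
  `x ^ m = Φ`, and `ζ` a primitive root of unity of order `m`. The class of the cocycle
  `τ ↦ τ(x) / x = ζ ^ κ`, `κ ∈ X ⊗ ℤ/m`, is mapped to zero by the homomorphism into
  `H¹(ℚ_ℓ, π₁(G_ℓ) ⊗ μ_m)`, where `π₁(G_ℓ)` is the quotient of `X` by the lattice of the coroots, because
  this homomorphism is defined on `G_ℓ(ℚ_ℓ) / im G_ℓ^sc(ℚ_ℓ)` (Borovoi). So `κ` is the sum of an element
  `q` of this lattice and an element `(τ - 1) z`, and one can replace `x` by `x ζ ^ (-z)`: `Kap`.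
* Hypothesis `hCr` at the place `v` itself and its residue characteristic `p`: `V` is the crystalline
  realisation, `Φ` the crystalline Frobenius endomorphism (linear over `ℚ_p`, with the same
  characteristic polynomial: Katz–Messing), and `g` the Lie algebra of the automorphism group `G'` of
  the crystalline fibre functor of the representations of `G_p`. The Newton cocharacter of `Φ` is in
  the convex hull of the conjugates of `e` (Rapoport–Richartz), and its conjugates under `Aut(ℂ)`
  span the Lie algebra of the Frobenius torus, because the eigenvalues of `Φ` have the same absolute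
  values and are units outside `p` (Serre). This gives `Spans`. `γ` is an automorphism of `ℂ`, an
  algebraic closure of `ℚ_p`, in the inertia group, with `γ(y) = ζ y` for `y ^ m = π`; it fixes the other
  roots in `Kum`, since they are roots of units, and the conjugates of `K` and `E`, since `p` is
  unramified there. For `p` in a set of density one `G_p` is unramified and the image of the Galois
  group is contained in a hyperspecial subgroup of `G_p(ℚ_p)` (Larsen for the semisimple part; the
  image is compact and fixes a hyperspecial vertex). So the simple ideals of `g` are stable under `γ`,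
  and `Φ = u μ(p)` for a cocharacter `μ` conjugate to `e` and an integral point `u` of a reductive model
  of `G'` over `ℤ_p` (Fontaine–Laffaille, Wintenberger, Kisin). The units of `ℚ_p^nr` are `m`-divisible,
  hence the image of `Φ` in `H¹(ℚ_p^nr, π₁(G') ⊗ μ_m)` is that of `e`, also on the torsion of `π₁(G')`, and
  as above `γ(x) = x ζ ^ (q + e)` for a point `x` of the torus with `x ^ m = Φ`: `Kap`.

## The conclusion

`N ∈ g` if and only if `N` commutes with the commutant of `g`, that is with `End(A)`, and has the
multiplier and the traces on the irreducible subspaces of a combination `∑ a_γ γ(e)`. Let `m` be the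
Lie algebra of the Mumford–Tate group, with coefficients in `ℂ`. By Deligne, Borovoi and
Piatetski-Shapiro `g ⊂ m`. As a Lie algebra with an action of the group `m` is spanned by the
conjugates of the images under `Aut(ℂ)` of the Hodge cocharacter, which has the ranks `r(σ)` and the
multiplier one; so its elements satisfy the condition of the theorem and `m ⊂ g`. Thus `G_ℓ` is the
Mumford–Tate group for all `ℓ` (for `ℓ` equal to the residue characteristic of `v` one takes another
place `v`).

## The reciprocity law

The lattice of the cocharacters of the Frobenius torus on `W` and its roots do not depend on `ℓ`. `W` is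
the tensor product of modules `W_s`, where `s` is in the set `S(σ)` of the connected components of the
roots; the group `Aut(ℂ)` acts on the union of the sets `S(σ)`. If `0 < r(σ) < n(σ)` the idempotent
`e` at `p` is not a scalar on exactly one factor `W_s`, `s = T(σ)`. The theorem is proved from

    g T(σ) = T(g σ)   for all automorphisms g of ℂ over K.

For `δ` in the stabiliser of `s` let `ε_s(δ)` be the root of unity by which the part of determinant one
of `Φ` in `W_s` is multiplied by `δ`. Let `κ` be the Kummer cocharacter of `δ`, `δ(x) = x ζ ^ κ`. If `κ` is
the sum of a cocharacter `κ₁` which is invariant under the reflections outside `s` and one which is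
invariant under those in `s`, then `ε_s(δ) = ζ ^ (-m' t)`, where `t` is the trace of `κ₁` on the
eigenspace for `σ` and `m'` the quotient of `m` and the dimension of this space. The trace is zero for
coroots. So `hHT` gives `ε_s(δ) = 1` for all `δ` in `Kum K π m 1`, and `hCr` gives `ε_s(γ) ≠ 1` if and only
if `s = T(σ)`. For `g` over `K`, `g(ζ) = ζ ^ a`, the commutator `γ ^ (-a) g γ g ^ (-1)` is in
`Kum K π m 1`; so `ε_s(g γ g ^ (-1)) ≠ 1` if and only if `s = T(g σ)`, and the left side is conjugate to
`ε_{g⁻¹ s}(γ)`.

The conjugates of `e` span `tor Φ`, so each component is `g T(g⁻¹ σ)` for some `g`, and this depends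
only on the restriction of `g` to `K`. If `K = ℚ` there is only one. In general this is excluded by
`NoTensor`, where `T` is the map `g ↦ g T(g⁻¹ σ)`.

If the roots on `W` are connected, the operators induced by `g` on `W` are all those of trace zero
which are skew for the invariant forms; this is proved without the classification of simple Lie
algebras, by the study of elements of minimal rank and of the Jordan algebras given by invertible
elements of degree one. If the middle exterior powers occurred, the classes of `e` and `1 - e` would be
different, the automorphisms over `K σ(E)` would preserve them, and the complex conjugation would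
exchange them (`NoQuad`). Finally, if a root acts on `W` and on `W'` for `σ' ≠ σ, c σ`, then
the roots and the weights of both agree, `e` has the same values on corresponding eigenvalues of `Φ`
up to exchanging `0` and `n`; since there are no twists corresponding eigenvalues are equal and
`σ' = σ` or `σ' = c σ`.

## The numerical conditions for arbitrary `K`

For every `σ`, with `n = n(σ)` and `r'` for the numbers `r(σ')` of the embeddings `σ'` of the factor
of `E` to which `σ` belongs (`SK`):
* `n = 1`, or
* `σ` is real (`CondR`): `W` is symplectic and `n = 4`, or `NoTensor` holds, `n ≠ 2 ^ m`, `m ≥ 4`, and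
  `n ≠ 8` in the orthogonal case; and `K σ(E)` contains no quadratic extension of `σ(E)` which is not
  real (`NoQuad`), or `n ≠ C(2k, k)` for `k ≥ 3`, `k` odd in the symplectic case and even in the
  orthogonal case.
* `σ` is not real (`CondN`): there is no twist (`NoTwist`), and `n = 4` and some `r' = 2`; or
  `NoTensor` holds, and some `r' = n / 2` and `n ≠ 4 ^ m`, `m ≥ 2`, or some `r'`, `0 < r' < n`, is not
  `n / 2` and `(n, r')` is not of the form `(C(N, k), C(N - 1, k - 1))`, `2 ≤ k ≤ N - 2`.
* if `n(σ) = 4`, `n(σ') = 6`, `σ` is not real and `σ'` is real of orthogonal type, then some `r'` is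
  not `1` or `3` (because of the isomorphism of the types `A₃` and `D₃`).

These conditions exclude the cases in which there can be smaller groups than the one of the
conclusion. `A` may be a product of simple abelian varieties of different types; the theorem includes
the statement that there are no relations between the monodromy groups of the factors except the
obvious ones.

## Earlier results

`E = ℚ`: Serre (`n` not divisible by `4`, or `n = 4`), Pink (`n ≠ m ^ k` and `n ≠ C(2k, k)` for all odd
`k ≥ 3`), and TrivialEndo in this folder (there `G_ℓ` need not be connected). Types I, II, III with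
`n / 2` odd and without the exceptional dimensions of type III: Chi, Banaszak–Gajda–Krasoń; small
toric rank: Hall, Hindry–Ratazzi. Type IV: Ribet, Chi, Xue–Zarhin, Vasiu (conditions on the
Mumford–Tate group). Products: Lombardo, Commelin (the conjecture for the factors implies it for the
product). In all of them the case that `W` is a tensor product is excluded by the dimension, by a
special place, or by a condition on the Mumford–Tate group; Noot treats Mumford–Tate groups of the
type of Mumford.
-/

set_option autoImplicit false

namespace Pool.Agent.Results.MP_6c781a_ag.Reciprocity

open Pool.Agent.FQV.Stmt (Mono Coch SK TrC)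
open Pool.Agent.FQX.Stmt

/-- The Mumford–Tate conjecture for abelian varieties of all types: the Lie algebra `g` of the
monodromy group consists of all matrices which commute with the endomorphisms and have the
multiplier and the traces of a combination of the conjugates of the idempotent of Hodge and Tate. -/
theorem result {ι : Type} [Fintype ι] [DecidableEq ι] {E : Type} [CommRing E] [Algebra ℚ E]
    [Module.Finite ℚ E] [IsReduced E] {R : E →+* Matrix ι ι ℚ} {Φ : Matrix ι ι ℚ} {c : E → E}
    (H : Frob R Φ) (hc : ∀ (σ : E →+* ℂ) a, σ (c a) = starRingEnd ℂ (σ a))
    {K : Subfield ℂ} [FiniteDimensional ℚ K] {π : K} {m : ℕ}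
    (hm : m = (Fintype.card ι).factorial) {ζ : ℂ} (hζ : IsPrimitiveRoot ζ m)
    {n r : (E →+* ℂ) → ℕ} {sp : (E →+* ℂ) → Prop}
    (hsp : ∀ σ σ' : E →+* ℂ, SK σ σ' → sp σ → sp σ')
    (hHT : ∀ γ : ℂ ≃+* ℂ, (∀ x ∈ K, γ x = x) → ∀ S : Finset ℂ, (∀ x ∈ S, IsAlgebraic ℚ x) →
      ∃ τ : ℂ ≃+* ℂ, (∀ x ∈ S, τ x = γ x) ∧
        ∃ (g : Submodule ℂ (Matrix ι ι ℂ)) (ψ e : Matrix ι ι ℂ), Mono R c Φ sp g ψ ∧
          Coch R Φ r g ψ τ e ∧ (Kum K π m 1 γ → Kap g Φ m ζ τ 0))
    (hCr : ∃ γ : ℂ ≃+* ℂ, Kum K π m ζ γ ∧ Crys R c Φ sp n r m ζ γ)
    (hnum : NumR K n r sp ∨ Num K n r sp)
    {g : Submodule ℂ (Matrix ι ι ℂ)} {ψ : Matrix ι ι ℂ} (M : Mono R c Φ sp g ψ)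
    (N : Matrix ι ι ℂ) :
    N ∈ g ↔ (∀ Z : Matrix ι ι ℂ, (∀ x ∈ g, x * Z = Z * x) → N * Z = Z * N) ∧
      ∃ a : (ℂ ≃+* ℂ) →₀ ℂ, TrC R r g ψ N a :=
  Pool.Agent.FQX.main_s H hc hm hζ hsp hHT hCr hnum M N

end Pool.Agent.Results.MP_6c781a_ag.Reciprocity
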