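import Pool.Agent.PTateU.DensU
import Pool.Agent.PTateW.OutW

/-!
# Tate classes and cyclic coverings of the line of prime degree with generic branch points

Let `p` be a prime number, `K` a field which contains a primitive root of unity `ζ` of order `p`,
`L` an algebraic closure of `K`, and let `a i` be elements of `K`, `i` in a finite set `ι`. A cyclic
covering of degree `p` of the line which is branched over some of the points `a i` and perhaps over
infinity is given by the exponents `e : Option ι → ZMod p`, with `∑ e i = 0`: its equation is
`y ^ p = ∏ (x - a i) ^ (e i)`, it is branched over the points with `e i ≠ 0` and over infinity if
`e none ≠ 0` (there are `|Br e|` branch points, and the genus is `(p - 1) (|Br e| - 2) / 2`). If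
infinity is not a branch point then we choose one of the branch points `a o` and use the coordinate
`(x - a o)⁻¹`: the equation is `y ^ p = ∏ (x - (a i - a o)⁻¹) ^ (e i)`, `i ≠ o`. Let `e s` be the
exponents of such coverings, `s` in a finite set `σ`, with at least three branch points, and let
`J s` be their Jacobians.

The hypothesis is that for every pair `{i, j}` of finite branch points of one of the coverings the
difference `a i - a j` is not, up to a root of unity and a `p`-th power in `K`, a product of powers
of differences of other such pairs. If `K` is a number field of degree prime to `p` this is true for
100 percent of the tuples of integers `a i`, and for all coverings at once
(`Pool.Agent.PTateU.generic_density`). The coverings may have the same branch points; we only assume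
that two coverings with more than three branch points are not equivalent, that is not isomorphic for
trivial reasons: `e t` is not a multiple of `e s`, and, if there are four branch points, also not a
multiple of the exponents which one obtains from `e s` if the branch points of two disjoint pairs
are exchanged. (For `p = 2`, the case of the hyperelliptic curves with rational Weierstrass points,
this only means that different curves have different branch points.)

Then the `p`-adic Tate classes on all powers of the abelian variety `∏ J s`, that is the multilinear
forms `F` on its `p`-adic Tate module on which an open subgroup of the Galois group acts by a power
of the cyclotomic character, are exactly the forms which are, over an algebraic closure of `ℚ_[p]`,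
linear combinations of products of Weil pairings of the factors `J s` (automorphisms `y ↦ ζ y` may
be applied to the variables) and of determinants of the factors `J s` which themselves are Tate
classes. A determinant is an alternating form with `|Br (e s)| - 2` variables which is an
eigenvector of the automorphism `y ↦ ζ y` in each variable. (For `p = 2` the determinants are
combinations of products of pairings and are not needed: `Pool.Agent.PTateW.two_tate`.)

So the monodromy group contains the product of the special unitary groups: it is as large as the
automorphisms of the curves and the characters on the determinants allow. If `K` is a number field,
the derived group of the Mumford-Tate group is contained in this product (it commutes with the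
automorphisms), so that it is equal to it and to the derived group of the monodromy group; as the
connected centres agree (Vasiu; Ullmo and Yafaev) and Hodge classes are Tate classes (Deligne), the
spaces of the Hodge classes and of the Tate classes are equal for `ℓ = p`, in all degrees and on all
powers (and then for all `ℓ`, by Larsen and Pink). The same is true for all varieties which are
dominated by products of the curves, or whose motives are direct summands of the motives of such
products: for all curves `X` which are abelian coverings of the line with a group `(ℤ/p) ^ r` and
with the branch points `a i` and infinity, and, by the theorem of Terasoma on the symmetric powers
of the line, for the smooth complete intersections `∑ (a j) ^ k (x j) ^ p = 0`, `0 ≤ k < c`, in a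
projective space, for example for the Calabi-Yau threefolds `∑ (x j) ^ 3 = ∑ a j (x j) ^ 3 = 0` in
the space of dimension five, or for the intersections of quadrics `∑ (a j) ^ k (x j) ^ 2 = 0`,
`0 ≤ k < c`.

Everything is defined from scratch: the ring of regular functions is the integral closure of `L[x]`,
the Jacobian is the group of divisors modulo the divisors of functions, the Weil pairing is the
quotient of values of functions. The proof determines the action of Galois on the points killed by
`(1 - σ) ^ 2` (by Hilbert's theorem 90; for `p = 2` these are the points of order four), lifts
Galois automorphisms which change exactly one `p`-th root of a difference `a i - a j`, shows that
the graded Lie algebra generated by their leading terms (operators of rank one, for all coverings at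
once) contains all operators of trace zero of the right symmetry in large degrees, so that the group
generated by them contains an open subgroup of the product of the special unitary groups over the
`p`-adic integers (the symplectic groups, if `p = 2`), and uses the first fundamental theorems of
invariant theory for products of special linear or symplectic groups.
-/

set_option autoImplicit false

noncomputable section

namespace Pool.Agent.Results.MP_6c781a_ag.SuperellipticPowers

open Pool.Agent.PTate Pool.Agent.PTate.Out Pool.Agent.PTateU

theorem result {K : Type} [Field K] {L : Type} [Field L] [Algebra K L]
    [Algebra.IsAlgebraic K L] [IsAlgClosed L] {p : ℕ} [Fact p.Prime] {ζ : K}
    (hζ : IsPrimitiveRoot ζ p) {ι σ : Type} [Fintype ι] [Fintype σ] {a : ι → K}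
    {e : σ → Option ι → ZMod p} {o : σ → Option ι} (h : PTateU.Generic p ζ a e o)
    {ξ : ℕ → L} (hξ : Stm.IsRoots p ξ) (hξ1 : ξ 1 = algebraMap K L ζ) {ζ' : Qb p}
    (hζ' : IsPrimitiveRoot ζ' p) {n r j : ℕ}
    (F : (Fin r → Vec L p (pt a) (fun s => Sb (e s) (o s)) (fun s => ex (e s)) n) → ℚ_[p])
    (hF : IsForm F) : IsTate j F ↔ (fun v => algebraMap ℚ_[p] (Qb p) (F v)) ∈
      Submodule.span (Qb p) {g | IsProduct ξ ζ' g ∧ IsTateE j g} :=
  Pool.Agent.PTateW.Out.structure_all hζ h hξ hξ1 hζ' F hF

end Pool.Agent.Results.MP_6c781a_ag.SuperellipticPowers
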