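import Pool.Agent.FQC.Main4

/-!
# The Mumford–Tate conjecture for abelian varieties with `End = ℤ`

Let `A` be an abelian variety of dimension `g` over a number field `K ⊂ ℂ` with
`End(A over the algebraic closure) = ℤ`, `n = 2 g`. Let `C` be the group of components of the
monodromy groups `G_ℓ` of `A` (it does not depend on `ℓ`: it is the Galois group of an extension
`K_conn` of `K`, Serre); `G_ℓ` is connected if `C` is trivial. By a theorem of Pink (1998, Theorem
5.13, based on the theorem of Faltings) there are a connected reductive group over `ℚ` with a
representation of dimension `n`, whose extension to `ℚ_ℓ` is the identity component of `G_ℓ` with its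
action on `V_ℓ(A)` for all `ℓ` in a set of density one, and its derived group is simple over `ℚ`.
Let `h` be the Lie algebra of this derived group and `F` the matrix of the invariant alternating
form; `h` and `F` satisfy `LieData`: `h` is a Lie algebra of rational matrices, skew for `F`, without
ideals over `ℚ` and irreducible over `ℂ`. Let `Φ` be the Frobenius element at a fixed place of `K`
with good reduction, split in `K_conn`, for which the Frobenius torus is a maximal torus of `G_ℓ`
(Serre), and `P` its characteristic polynomial; all complex roots of `P` have the same absolute value
(Weil).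

Let `γ` be an automorphism of `ℂ` over `K` and `S` a finite set of algebraic numbers. By the theorem
of Chebotarev there is a prime `ℓ` in the set of density one, and an isomorphism of `ℂ` with an
algebraic closure of `ℚ_ℓ`, such that the place of `K` over `ℓ` given by this isomorphism has degree
one and good reduction, and an automorphism `τ` over `ℚ_ℓ` which agrees with `γ` on `S`. The
decomposition of Hodge and Tate gives an idempotent in `Lie G_ℓ` (Tate, Sen) whose conjugacy class
under `G_ℓ` is stable under the decomposition group, that is under `τ`; this class contains an element
`e` of the Lie algebra of the torus of `Φ`. These are the data `HodgeTate h P C τ`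
(file `Pool/Agent/FQ/Defs.lean`): `τ` fixes `Φ`, and `τ(e)` is conjugate to `e` by an element
`ν c * u` of `G_ℓ`; the points `ν c` of the components of `G_ℓ` are rational over `ℚ_ℓ`, so fixed by
`τ`.

The theorem says that `h` is the full symplectic algebra. So `G_ℓ` is the group of symplectic
similitudes, for all `ℓ` in a set of density one, hence for all `ℓ` (Larsen–Pink), the
Mumford–Tate group is the same group, and the Hodge classes and the Tate classes on all powers of `A`
are spanned by products of classes of divisors. The conditions are:

* if `n` is a `k`-th power, `k ≥ 3` odd, then `K` is linearly disjoint over `ℚ` from every field of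
  degree `k`, or `k = 3` and `K` has no cubic subfield; and either `G_ℓ` is connected, or `k` is prime
  and `K_conn` contains no Galois extension of `K` of degree `k`;
* `n` is not a power `2 ^ m` with `m ≥ 5` and `m` equal to `1` or `2` modulo `4`;
* if `n` is a binomial coefficient `C(2 k, k)`, `k ≥ 3` odd, then `K` is real and the degree of
  `K_conn` over `K` is odd.

`K` is linearly disjoint from every field of degree `k` if `k` is prime to the degree of `K`, and also
if `K` is a Galois extension of `ℚ` without subfields of degree `d > 1`, `d` a divisor of `k`. For
`g = 4` and `G_ℓ` connected the condition is that `K` has no cubic subfield; this is sharp, because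
the fourfolds of Mumford (with `End = ℤ` and a smaller group) are defined over fields which contain
a cubic field (the reflex field).

So for `K = ℚ` and `G_ℓ` connected there are no exceptions except `n = 32, 64, 512, 1024, …`, which
cannot be excluded by these data, because in these dimensions there are symplectic spin
representations (of `Spin(2 m + 1)`, `m` equal to `1` or `2` modulo `4`), which occur for abelian
varieties with a smaller group. Pink's theorem has the exceptions `n = m ^ k` and `n = C(2 k, k)`,
`k ≥ 3` odd, so that the first unknown dimensions were `g = 4` and `g = 10`.

The idea of the proof. Every idempotent `e` as above lies, up to homotheties, in one simple ideal of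
`h ⊗ ℂ`. The group `Aut(ℂ)` permutes the simple ideals transitively, their number `k` is odd and `n`
is a `k`-th power. The group `Aut(ℂ / K)` is still transitive, by the linear disjointness; for
`k = 3` an ideal fixed by `Aut(ℂ / K)` would give a cubic subfield of `K`. Every `γ` over `K` fixes
one of the ideals, if `G_ℓ` is connected; by the theorem of Jordan on permutations without fixed
points there is only one. So `h ⊗ ℂ` is simple. If it is not the symplectic algebra then `n` is a
power `2 ^ m`, `m` equal to `1` or `2` modulo `4`, or a binomial coefficient `C(2 k, k)`; this is
proved without the classification of simple Lie algebras, by the study of elements of minimal rank of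
degree one with respect to `e` (SmallRank) and of the Jordan algebra of operators given by an
invertible element of degree one (Tube): in the remaining case of tube type it is a spin factor, and
the sign of the form on the spin module of its Clifford algebra depends on `m` modulo `4`. If `K` is real let `γ` be the complex conjugation and `S` the set of the eigenvalues of `Φ`;
then `τ(e) = 1 - e`, because products of conjugate eigenvalues are equal. So `e` and `1 - e` are
conjugate, and this implies that there is an invertible element of degree one, which excludes the
binomial coefficients.
-/

set_option autoImplicit false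

namespace Pool.Agent.Results.MP_6c781a_ag.TrivialEndo

open Pool.Agent.FQ

/-- The Mumford–Tate conjecture for abelian varieties with `End = ℤ`: the Lie algebra `h` is the full
symplectic algebra. -/
theorem result {ι : Type} [Fintype ι] [DecidableEq ι] {F : Matrix ι ι ℚ}
    {h : Submodule ℚ (Matrix ι ι ℚ)} (D : LieData F h) (K : Subfield ℂ) [FiniteDimensional ℚ K]
    {P : Polynomial ℚ} {r : ℝ} (hr : 0 < r)
    (hP : ∀ z : ℂ, (P.map (algebraMap ℚ ℂ)).IsRoot z → ‖z‖ = r) {C : Type} [Group C]
    (hH : ∀ γ : ℂ ≃+* ℂ, (∀ x ∈ K, γ x = x) → ∀ S : Finset ℂ, (∀ x ∈ S, IsAlgebraic ℚ x) →
      ∃ τ : ℂ ≃+* ℂ, (∀ x ∈ S, τ x = γ x) ∧ HodgeTate h P C τ)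
    (hk : ∀ k m : ℕ, Odd k → 3 ≤ k → Fintype.card ι = m ^ k →
      ((∀ E : Subfield ℂ, Module.finrank ℚ E = k →
          Module.finrank ℚ (K ⊔ E : Subfield ℂ) = Module.finrank ℚ K * k) ∨
        (k = 3 ∧ ∀ E : Subfield ℂ, E ≤ K → Module.finrank ℚ E ≠ 3)) ∧
        (Subsingleton C ∨ (k.Prime ∧ ∀ N : Subgroup C, N.Normal → N.index ≠ k)))
    (hpow : ∀ m : ℕ, 5 ≤ m → m % 4 = 1 ∨ m % 4 = 2 → Fintype.card ι ≠ 2 ^ m)
    (hn : (∀ k : ℕ, Odd k → 3 ≤ k → Fintype.card ι ≠ (2 * k).choose k) ∨
      (Odd (Nat.card C) ∧ ∀ x ∈ K, (starRingEnd ℂ) x = x)) (N : Matrix ι ι ℚ) :
    N ∈ h ↔ N.transpose * F + F * N = 0 :=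
  Pool.Agent.FQC.main4 D K hr hP hH hk hpow hn N

end Pool.Agent.Results.MP_6c781a_ag.TrivialEndo
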